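import Mathlib
import Pool.Agent.Q267.CD.Comp

/-!
# MP_72abcc_nt: the determinant `{3,2}_n` for `n ≡ 3 mod 8`

`{3,2}_n = det [((j²+3jk+2k²)/n)]_{1<j,k<n-1}` (Jacobi symbols) equals `φ(n)/2 · x²` for an
integer `x`, for every positive integer `n ≡ 3 mod 8`.
-/

namespace Pool.Agent.Results.MP_72abcc_nt.DetThreeTwo

open Pool.Agent.Q267.CD

theorem result : ∀ n : ℕ, n % 8 = 3 → ∃ x : ℤ,
    (((Matrix.of fun j k : Finset.Ioo 1 (n - 1) =>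
      jacobiSym (((j : ℕ) : ℤ) ^ 2 + 3 * ((j : ℕ) : ℤ) * ((k : ℕ) : ℤ) + 2 * ((k : ℕ) : ℤ) ^ 2)
        n).det : ℤ) : ℚ) = ((n.totient : ℚ) / 2) * (x : ℚ) ^ 2 := by
  intro n hn
  obtain ⟨x, hx⟩ := main n hn
  refine ⟨x, ?_⟩
  have h2 : 2 ∣ n.totient := even_iff_two_dvd.1 (Nat.totient_even (by omega))
  have h3 : ((n.totient : ℚ) / 2) = ((n.totient / 2 : ℕ) : ℚ) := by
    rw [Nat.cast_div h2 (by norm_num)]
    norm_num
  rw [h3]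
  have h4 : ∀ d : ℤ, d = ((n.totient / 2 : ℕ) : ℤ) * x ^ 2 →
      (d : ℚ) = ((n.totient / 2 : ℕ) : ℚ) * (x : ℚ) ^ 2 := by
    intro d hd
    rw [hd, Int.cast_mul, Int.cast_natCast, Int.cast_pow]
  exact h4 _ hx

end Pool.Agent.Results.MP_72abcc_nt.DetThreeTwo
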